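import Mathlib
import Pool.Agent.K9h54.TF.Quad

/-!
# A fifth prime is free: from the prime quadruples of both shapes to the quintuples

Let `H = {0, 2, 6, 8}` (with the constant `c = E`) or `H = {0, 4, 6, 10}` (with the constant `c = 2 E`), so that the
question asks whether `N_H(n) (log n) ^ 4 / (c n)` tends to `1`, where `N_H(n)` is the number of the `p ≤ n` for which
all `p + h`, `h ∈ H`, are prime.

For every `ε > 0` there is a `w` (it can be taken as large as we like) such that for every `C` and all large `n` the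
following holds, with `W` the product of the primes up to `w`. Let `A` be ANY set of such `p ≤ n`, let `b` be any
residue class modulo `W` such that `W ∣ ∏ (b - h)` (for example the multiples of `W`), and let `(u, u + K]` be any window
in `[0, n]` with `K ≥ n / (log n) ^ C`. Then for all but at most `ε K / W` of the `d` of the class in the window (there
are about `K / W` of them) the normalised count

`#{p ∈ A : p + d prime} (log n) ^ 5 / (S(H ∪ {d}) n)`

of the quintuples of `A` differs by at most `ε` from the normalised count `#A (log n) ^ 4 / (c n)` of the quadruples.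

If `A` is the set of all prime quadruples up to `n` then the second number is the one of the question: whatever the
size of `N_H(n)` is, for almost all these `d` the fifth prime comes at the expected rate.
-/

set_option autoImplicit false

namespace Pool.Agent.Results.MP_092512_nt.FifthPrimeIsFree

open Finset

/-- the constant `E` -/
noncomputable def E : ℝ :=
  27 / 2 * ∏' q : Nat.Primes, if 3 < (q : ℕ) then ((q : ℕ) : ℝ) ^ 3 * ((q : ℕ) - 4) / ((q : ℕ) - 1) ^ 4 else 1

/-- the singular series of a set of five integers -/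
noncomputable def S5 (D : Finset ℕ) : ℝ := ∏' p : Nat.Primes,
  ((1 - ((((D.image (fun n => n % (p : ℕ))).card : ℕ) : ℝ) / ((p : ℕ) : ℝ))) / (1 - 1 / ((p : ℕ) : ℝ)) ^ 5)

/-- the `p ≤ n` for which all `p + h`, `h ∈ H`, are prime; `N₁(n)` and `N₂(n)` are the numbers of the elements of
`quads {0, 2, 6, 8} n` and `quads {0, 4, 6, 10} n` -/
def quads (H : Finset ℕ) (n : ℕ) : Finset ℕ := (Icc 1 n).filter (fun p => ∀ h ∈ H, (p + h).Prime)

/-- the product of the primes up to `w` -/
def W (w : ℕ) : ℕ := ∏ q ∈ (Icc 1 w).filter Nat.Prime, q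

open Classical in
/-- **A fifth prime is free.** -/
theorem result (H : Finset ℕ) (c : ℝ) (hH : (H = {0, 2, 6, 8} ∧ c = E) ∨ (H = {0, 4, 6, 10} ∧ c = 2 * E))
    (ε : ℝ) (hε : 0 < ε) (w0 : ℕ) : ∃ w ≥ w0, ∀ C : ℕ, ∃ n0 : ℕ, ∀ n ≥ n0, ∀ A ⊆ quads H n,
      ∀ b : ℕ, (W w : ℤ) ∣ ∏ h ∈ H, ((b : ℤ) - h) →
      ∀ u K : ℕ, (n : ℝ) ≤ K * Real.log n ^ C → u + K ≤ n →
      (((Ioc u (u + K)).filter (fun d => d % W w = b % W w ∧ d ∉ H ∧
        ¬ (0 < S5 (insert d H) ∧
          |((A.filter (fun p => (p + d).Prime)).card : ℝ) * Real.log n ^ 5 / (S5 (insert d H) * n) -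
            (A.card : ℝ) * Real.log n ^ 4 / (c * n)| ≤ ε))).card : ℝ) ≤ ε * (K / W w) := by
  have hE : E = 27 / 2 * ∏' q : Nat.Primes, Pool.Agent.K9h54.TF.ef q := rfl
  have hc : c = Pool.Agent.H387R2.Uni.CT H := by
    rcases hH with ⟨rfl, rfl⟩ | ⟨rfl, rfl⟩
    · rw [hE, Pool.Agent.K9h54.TF.E1]
    · rw [hE, Pool.Agent.K9h54.TF.E2]
  have hcard : H.card = 4 := by
    rcases hH with ⟨rfl, _⟩ | ⟨rfl, _⟩
    · exact Pool.Agent.K9h54.TF.card1
    · exact Pool.Agent.K9h54.TF.card2
  have hadm : ∀ p : ℕ, p.Prime → Pool.Agent.H387R2.Uni.nuT H p < p := by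
    rcases hH with ⟨rfl, _⟩ | ⟨rfl, _⟩
    · exact Pool.Agent.K9h54.TF.adm1
    · exact Pool.Agent.K9h54.TF.adm2
  have hle : ∀ h ∈ H, h ≤ 10 := by
    rcases hH with ⟨rfl, _⟩ | ⟨rfl, _⟩
    · decide
    · decide
  obtain ⟨C5, hC5, h⟩ := Pool.Agent.K9h54.TF.up2 4 (by norm_num)
  obtain ⟨w, hw, h⟩ := h ε hε w0
  refine ⟨w, hw, fun C => ?_⟩
  obtain ⟨x1, h⟩ := h C
  refine ⟨max x1 10, fun n hn A hA b hb u K hK huK => ?_⟩
  have hA1 : A ⊆ Icc 1 n := hA.trans (filter_subset _ _)
  obtain ⟨_, h3⟩ := h n ((le_max_left _ _).trans hn) H hcard hadm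
    (fun h hh => (hle h hh).trans ((le_max_right _ _).trans hn)) A hA1 (fun m hm => (mem_filter.1 (hA hm)).2)
  obtain ⟨h5, h6⟩ := h3 u K b (Pool.Agent.K9h54.TF.cov_gen hb) hK huK
  have hS : ∀ d, d ∉ H → S5 (insert d H) = Pool.Agent.H387R2.Uni.CT (insert d H) := by
    intro d hd
    unfold S5 Pool.Agent.H387R2.Uni.CT Pool.Agent.H387R2.Uni.locT Pool.Agent.H387R2.Uni.nuT
    rw [card_insert_of_notMem hd, hcard]
  refine le_trans ?_ h6
  have hsub : (Ioc u (u + K)).filter (fun d => d % W w = b % W w ∧ d ∉ H ∧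
        ¬ (0 < S5 (insert d H) ∧
          |((A.filter (fun p => (p + d).Prime)).card : ℝ) * Real.log n ^ 5 / (S5 (insert d H) * n) -
            (A.card : ℝ) * Real.log n ^ 4 / (c * n)| ≤ ε)) ⊆
      (Ioc u (u + K)).filter (fun d : ℕ => d % (∏ q ∈ Pool.Agent.H373R2.T7.pz w, q) =
        b % (∏ q ∈ Pool.Agent.H373R2.T7.pz w, q) ∧ d ∉ H ∧
        ε < |((A.filter (fun m : ℕ => (m + d).Prime)).card : ℝ) * Real.log n ^ (4 + 1) /
          (Pool.Agent.H387R2.Uni.CT (insert d H) * n) -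
          (A.card : ℝ) * Real.log n ^ 4 / (Pool.Agent.H387R2.Uni.CT H * n)|) := by
    intro d hd
    rw [mem_filter] at hd ⊢
    obtain ⟨g1, g2, g3, g4⟩ := hd
    refine ⟨g1, g2, g3, ?_⟩
    rw [hS d g3, hc] at g4
    by_contra g6
    exact g4 ⟨h5 d g1 g2, not_lt.1 g6⟩
  exact_mod_cast card_le_card hsub

end Pool.Agent.Results.MP_092512_nt.FifthPrimeIsFree
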