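import Pool.Agent.K9h53.LR.Main

/-!
The numbers of prime factors of the four members of an almost prime quadruple, of either of the two
shapes: no linear relation with values in an abelian group, apart from those with coefficient sum zero.
-/

set_option autoImplicit false

open Finset

namespace Pool.Agent.Results.MP_092512_nt.NoLinearRelation

universe u

/-- both shapes are admissible -/
theorem adm (s : Fin 4 → ℕ) (hs : s = ![0, 2, 6, 8] ∨ s = ![0, 4, 6, 10]) (p : ℕ) (hp : p.Prime) :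
    ∃ n : ℕ, ∀ i, ¬ p ∣ n + s i := by
  rcases le_or_gt p 4 with h | h
  · have h2 := hp.two_le
    interval_cases p
    · refine ⟨1, fun i => ?_⟩
      rcases hs with rfl | rfl <;> fin_cases i <;> decide
    · rcases hs with rfl | rfl
      · exact ⟨2, fun i => by fin_cases i <;> decide⟩
      · exact ⟨1, fun i => by fin_cases i <;> decide⟩
    · exact absurd hp (by decide)
  · -- the numbers `1, 2, 3, 4, 5` represent five classes
    by_contra hcon
    push Not at hcon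
    choose f hf using hcon
    obtain ⟨a, ha, b, hb, hab, hfab⟩ := Finset.exists_ne_map_eq_of_card_lt_of_maps_to
      (s := Finset.range 5) (t := (Finset.univ : Finset (Fin 4))) (by simp) (f := f)
      (fun _ _ => Finset.mem_univ _)
    rw [Finset.mem_range] at ha hb
    have h1 := hf a
    have h2 := hf b
    rw [hfab] at h1
    wlog hlt : a < b generalizing a b
    · exact this b hb a ha hab.symm hfab.symm (hfab ▸ h2) (hfab ▸ h1) (by omega)
    have h3 := (Nat.dvd_sub h2 h1)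
    have h4 : b + s (f b) - (a + s (f b)) = b - a := by omega
    rw [h4] at h3
    have := Nat.le_of_dvd (by omega) h3
    omega

/-- **The numbers of prime factors at almost prime quadruples satisfy no linear relation.**
For every `ε > 0` there are `R`, `δ > 0` and `x₀` such that for all `x ≥ x₀`, for both shapes
`s = (0, 2, 6, 8)` and `s = (0, 4, 6, 10)`, for all abelian groups `G`, all `g 0, ..., g 3` in `G` with
`g 0 + g 1 + g 2 + g 3 ≠ 0` and all `c` in `G` there are `r 0, ..., r 3 ≤ R` with `∑ i, r i • g i ≠ c` such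
that for at least `x ^ (1 - ε)` positive integers `n ≤ x` each of the four numbers `n + s i` is a product
of exactly `r i` primes, all of them larger than `x ^ δ`. -/
theorem result (ε : ℝ) (hε : 0 < ε) :
    ∃ (R : ℕ) (δ x₀ : ℝ), 0 < δ ∧ ∀ x : ℝ, x₀ ≤ x →
    ∀ s : Fin 4 → ℕ, s = ![0, 2, 6, 8] ∨ s = ![0, 4, 6, 10] →
    ∀ (G : Type u) [AddCommGroup G] (g : Fin 4 → G), ∑ i, g i ≠ 0 → ∀ c : G,
    ∃ r : Fin 4 → ℕ, (∀ i, r i ≤ R) ∧ ∑ i, r i • g i ≠ c ∧
      x ^ (1 - ε) ≤ ({n : ℕ | 0 < n ∧ (n : ℝ) ≤ x ∧ ∀ i,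
        ArithmeticFunction.cardFactors (n + s i) = r i ∧
        ∀ p : ℕ, p.Prime → p ∣ n + s i → x ^ δ < p}.ncard : ℝ) := by
  obtain ⟨R₁, δ₁, x₁, hδ₁, h₁⟩ :=
    Pool.Agent.K9h53.LR.relation.{u} ![0, 2, 6, 8] (adm _ (Or.inl rfl)) ε hε
  obtain ⟨R₂, δ₂, x₂, hδ₂, h₂⟩ :=
    Pool.Agent.K9h53.LR.relation.{u} ![0, 4, 6, 10] (adm _ (Or.inr rfl)) ε hε
  refine ⟨max R₁ R₂, min δ₁ δ₂, max (max x₁ x₂) 1, lt_min hδ₁ hδ₂, fun x hx s hs G _ g hg c => ?_⟩
  have hx1 : x₁ ≤ x := (le_max_left _ _).trans ((le_max_left _ _).trans hx)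
  have hx2 : x₂ ≤ x := (le_max_right _ _).trans ((le_max_left _ _).trans hx)
  have hx3 : 1 ≤ x := (le_max_right _ _).trans hx
  have hmono : ∀ (δ : ℝ) (r : Fin 4 → ℕ), min δ₁ δ₂ ≤ δ →
      (({n : ℕ | 0 < n ∧ (n : ℝ) ≤ x ∧ ∀ i, ArithmeticFunction.cardFactors (n + s i) = r i ∧
        ∀ p : ℕ, p.Prime → p ∣ n + s i → x ^ δ < p}.ncard : ℕ) : ℝ) ≤
      (({n : ℕ | 0 < n ∧ (n : ℝ) ≤ x ∧ ∀ i, ArithmeticFunction.cardFactors (n + s i) = r i ∧
        ∀ p : ℕ, p.Prime → p ∣ n + s i → x ^ (min δ₁ δ₂) < p}.ncard : ℕ) : ℝ) := by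
    intro δ r hδ
    have : {n : ℕ | 0 < n ∧ (n : ℝ) ≤ x ∧ ∀ i, ArithmeticFunction.cardFactors (n + s i) = r i ∧
        ∀ p : ℕ, p.Prime → p ∣ n + s i → x ^ δ < p} ⊆
        {n : ℕ | 0 < n ∧ (n : ℝ) ≤ x ∧ ∀ i, ArithmeticFunction.cardFactors (n + s i) = r i ∧
        ∀ p : ℕ, p.Prime → p ∣ n + s i → x ^ (min δ₁ δ₂) < p} := by
      rintro n ⟨a1, a2, a3⟩
      exact ⟨a1, a2, fun i => ⟨(a3 i).1, fun p hp hd =>
        lt_of_le_of_lt (Real.rpow_le_rpow_of_exponent_le hx3 hδ) ((a3 i).2 p hp hd)⟩⟩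
    exact_mod_cast Set.ncard_le_ncard this
      ((Set.finite_le_nat ⌊x⌋₊).subset fun _ hn => Nat.le_floor hn.2.1)
  rcases hs with rfl | rfl
  · obtain ⟨r, hr, hne, hcard⟩ := h₁ x hx1 G g hg c
    exact ⟨r, fun i => (hr i).trans (le_max_left _ _), hne, hcard.trans (hmono _ _ (min_le_left _ _))⟩
  · obtain ⟨r, hr, hne, hcard⟩ := h₂ x hx2 G g hg c
    exact ⟨r, fun i => (hr i).trans (le_max_right _ _), hne, hcard.trans (hmono _ _ (min_le_right _ _))⟩

end Pool.Agent.Results.MP_092512_nt.NoLinearRelation
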