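import Mathlib
import Pool.Agent.K9h54.TF.Quad
import Pool.Agent.K9h59.OM.Up

/-!
# From the prime quadruples of both shapes to quintuples whose fifth shift has random digits

Let `Q = {0, 2, 6, 8}` (with the constant `C = E`) or `Q = {0, 4, 6, 10}` (with the constant `C = 2 E`), so that the
question asks whether `N(n) (log n) ^ 4 / (C n)` tends to `1`, where `N(n)` is the number of the `p ≤ n` for which all
`p + h`, `h ∈ Q`, are prime.

The base `b ≥ 2`, the number `H` of the possible digits, `η, ε > 0` and `D` are fixed. Let `w` be large, let `W` be the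
product of the primes up to `w` and let `k` be large. Let `ξ_0, …, ξ_{k-1}` be ANY independent random digits in
`{0, …, H - 1}`, of arbitrary laws, with the only condition that for `j ≤ k - D log k` no value has probability larger
than `1 - η` (the `D log k` highest digits can be constant). Let `c ≥ 0` be an integer with `W ∣ ∏ (c - h)`, `h ∈ Q`
(for example `c = 0`), and consider the random shift

`d = c + W (ξ_0 + ξ_1 b + ⋯ + ξ_{k-1} b ^ (k-1))`.

For example, `d` can be `W` times a random number whose digits in the base `b` are zeros and ones: then `d` is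
restricted to a set of at most `2 ^ k` integers, which is at most `n ^ δ` for any given `δ > 0` if `b` is large.

Let `n` be an integer with `b ^ k / k ^ D ≤ n ≤ D b ^ k` such that the values of `d` are at most `n`, and let `A` be ANY
set of such `p ≤ n`. Then, with probability at least `1 - ε`, the singular series `S(Q ∪ {d})` is positive and the
normalised count

`#{p ∈ A : p + d prime} (log n) ^ 5 / (S(Q ∪ {d}) n)`

of the quintuples of `A` differs by at most `ε` from the normalised count `#A (log n) ^ 4 / (C n)` of the quadruples.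

If `A` is the set of all prime quadruples up to `n` then the second number is the one of the question: whatever the
size of `N(n)` is, for most values of such a sparse random shift the fifth prime comes at the expected rate.
-/

set_option autoImplicit false

namespace Pool.Agent.Results.MP_092512_nt.RandomDigitConstellations

open Finset

/-- the constant `E` -/
noncomputable def E : ℝ :=
  27 / 2 * ∏' q : Nat.Primes, if 3 < (q : ℕ) then ((q : ℕ) : ℝ) ^ 3 * ((q : ℕ) - 4) / ((q : ℕ) - 1) ^ 4 else 1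

/-- the singular series of a set of five integers -/
noncomputable def S5 (F : Finset ℕ) : ℝ := ∏' p : Nat.Primes,
  ((1 - ((((F.image (fun n => n % (p : ℕ))).card : ℕ) : ℝ) / ((p : ℕ) : ℝ))) / (1 - 1 / ((p : ℕ) : ℝ)) ^ 5)

/-- the `p ≤ n` for which all `p + h`, `h ∈ Q`, are prime; `N₁(n)` and `N₂(n)` are the numbers of the elements of
`quads {0, 2, 6, 8} n` and `quads {0, 4, 6, 10} n` -/
def quads (Q : Finset ℕ) (n : ℕ) : Finset ℕ := (Icc 1 n).filter (fun p => ∀ h ∈ Q, (p + h).Prime)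

/-- the product of the primes up to `w` -/
def W (w : ℕ) : ℕ := ∏ q ∈ (Icc 1 w).filter Nat.Prime, q

/-- the laws of the `k` random digits: the `j`-th digit takes the values `a ∈ σ j` with the probabilities `P j a`; the
digits are smaller than `H`, and none but the `D log k` highest ones takes a value with a probability above `1 - η` -/
structure Laws (H k D : ℕ) (η : ℝ) (σ : ℕ → Finset ℕ) (P : ℕ → ℕ → ℝ) : Prop where
  digit : ∀ j < k, ∀ a ∈ σ j, a < H ∧ 0 ≤ P j a
  total : ∀ j < k, ∑ a ∈ σ j, P j a = 1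
  spread : ∀ j < k, (j : ℝ) + D * Real.log k ≤ k → ∀ a ∈ σ j, P j a ≤ 1 - η

/-- the shift `c + W (ξ_0 + ξ_1 b + ⋯ + ξ_{k-1} b ^ (k-1))` -/
def shift (b w c : ℕ) {k : ℕ} (ξ : Fin k → ℕ) : ℕ := c + W w * ∑ j : Fin k, b ^ (j : ℕ) * ξ j

open Classical in
/-- the probability of an event, for independent digits with the given laws -/
noncomputable def Prob {k : ℕ} (σ : ℕ → Finset ℕ) (P : ℕ → ℕ → ℝ) (G : (Fin k → ℕ) → Prop) : ℝ :=
  ∑ ξ ∈ (Fintype.piFinset (fun j : Fin k => σ j)).filter G, ∏ j : Fin k, P j (ξ j)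

/-- **From the quadruples to the quintuples, for shifts with random digits.** -/
theorem result (Q : Finset ℕ) (C : ℝ) (hQ : (Q = {0, 2, 6, 8} ∧ C = E) ∨ (Q = {0, 4, 6, 10} ∧ C = 2 * E))
    (b H D : ℕ) (hb : 2 ≤ b) (η ε : ℝ) (hη : 0 < η) (hε : 0 < ε) : ∃ w0 : ℕ, ∀ w ≥ w0, ∃ k0 : ℕ, ∀ k ≥ k0,
    ∀ (σ : ℕ → Finset ℕ) (P : ℕ → ℕ → ℝ), Laws H k D η σ P → ∀ n : ℕ, b ^ k ≤ k ^ D * n → n ≤ D * b ^ k →
    ∀ A ⊆ quads Q n, ∀ c : ℕ, (W w : ℤ) ∣ ∏ h ∈ Q, ((c : ℤ) - h) →
    (∀ ξ ∈ Fintype.piFinset (fun j : Fin k => σ j), shift b w c ξ ≤ n) →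
      1 - ε ≤ Prob σ P (fun ξ : Fin k → ℕ => 0 < S5 (insert (shift b w c ξ) Q) ∧
        |((A.filter (fun p => (p + shift b w c ξ).Prime)).card : ℝ) * Real.log n ^ 5 /
            (S5 (insert (shift b w c ξ) Q) * n) - (A.card : ℝ) * Real.log n ^ 4 / (C * n)| ≤ ε) := by
  classical
  have hE : E = 27 / 2 * ∏' q : Nat.Primes, Pool.Agent.K9h54.TF.ef q := rfl
  have hc : C = Pool.Agent.H387R2.Uni.CT Q := by
    rcases hQ with ⟨rfl, rfl⟩ | ⟨rfl, rfl⟩
    · rw [hE, Pool.Agent.K9h54.TF.E1]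
    · rw [hE, Pool.Agent.K9h54.TF.E2]
  have hcard : Q.card = 4 := by
    rcases hQ with ⟨rfl, _⟩ | ⟨rfl, _⟩
    · exact Pool.Agent.K9h54.TF.card1
    · exact Pool.Agent.K9h54.TF.card2
  have hadm : ∀ p : ℕ, p.Prime → Pool.Agent.H387R2.Uni.nuT Q p < p := by
    rcases hQ with ⟨rfl, _⟩ | ⟨rfl, _⟩
    · exact Pool.Agent.K9h54.TF.adm1
    · exact Pool.Agent.K9h54.TF.adm2
  have hle : ∀ h ∈ Q, h ≤ 10 := by
    rcases hQ with ⟨rfl, _⟩ | ⟨rfl, _⟩
    · decide
    · decide
  obtain ⟨w0, h⟩ := Pool.Agent.K9h59.OM.fup 4 (by norm_num) b H D D hb η hη ε hε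
  refine ⟨w0, fun w hw => ?_⟩
  obtain ⟨k0, h⟩ := h w hw
  obtain ⟨k1, hsz⟩ := Pool.Agent.K9h59.OM.sizes b D w hb
  refine ⟨max (max k0 k1) (10 ^ 2), fun k hk σ P hL n hn1 hn2 A hA c hc' hr => ?_⟩
  have hD : Pool.Agent.K9h59.OM.Dig H k D η σ P := ⟨hL.digit, hL.total, hL.spread⟩
  have hA1 : A ⊆ Icc 1 n := hA.trans (filter_subset _ _)
  obtain ⟨_, _, _, _, _, _, _, s8, s9⟩ := hsz k n ((le_max_right _ _).trans ((le_max_left _ _).trans hk)) hn1 hn2
  have hn10 : 10 ≤ n := Pool.Agent.K9h59.OM.xl ((le_max_right _ _).trans hk) s8 s9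
  have h3 := h k ((le_max_left _ _).trans ((le_max_left _ _).trans hk)) σ P hD n hn1 hn2 Q hcard hadm
    (fun h hh => (hle h hh).trans hn10) A hA1 (fun m hm => (mem_filter.1 (hA hm)).2) c hr
    (Pool.Agent.K9h54.TF.cov_gen hc')
  have hsh : ∀ ξ : Fin k → ℕ, c + (∏ q ∈ Pool.Agent.H373R2.T7.pz w, q) * Pool.Agent.K9h59.OM.val b ξ = shift b w c ξ :=
    fun ξ => rfl
  simp only [hsh] at h3
  have hS : ∀ d, d ∉ Q → S5 (insert d Q) = Pool.Agent.H387R2.Uni.CT (insert d Q) := by
    intro d hd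
    unfold S5 Pool.Agent.H387R2.Uni.CT Pool.Agent.H387R2.Uni.locT Pool.Agent.H387R2.Uni.nuT
    rw [card_insert_of_notMem hd, hcard]
  have h1 : ∑ ξ ∈ Fintype.piFinset (fun j : Fin k => σ j), ∏ j : Fin k, P j (ξ j) = 1 :=
    Pool.Agent.K9h59.OM.wt_sum hD
  have h0 : ∀ ξ ∈ Fintype.piFinset (fun j : Fin k => σ j), 0 ≤ ∏ j : Fin k, P j (ξ j) :=
    Pool.Agent.K9h59.OM.wt_nonneg hD
  obtain ⟨G, hG⟩ : ∃ G : (Fin k → ℕ) → Prop, G = fun ξ : Fin k → ℕ => 0 < S5 (insert (shift b w c ξ) Q) ∧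
        |((A.filter (fun p => (p + shift b w c ξ).Prime)).card : ℝ) * Real.log n ^ 5 /
            (S5 (insert (shift b w c ξ) Q) * n) - (A.card : ℝ) * Real.log n ^ 4 / (C * n)| ≤ ε := ⟨_, rfl⟩
  rw [← hG]
  unfold Prob
  have h4 := sum_filter_add_sum_filter_not (Fintype.piFinset (fun j : Fin k => σ j)) G (fun ξ => ∏ j : Fin k, P j (ξ j))
  rw [h1] at h4
  have h5 : ∑ ξ ∈ (Fintype.piFinset (fun j : Fin k => σ j)).filter (fun ξ => ¬ G ξ), ∏ j : Fin k, P j (ξ j) ≤ ε := by
    refine le_trans (sum_le_sum_of_subset_of_nonneg ?_ fun ξ hξ _ => h0 ξ (mem_filter.1 hξ).1) h3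
    intro ξ hξ
    rw [mem_filter] at hξ ⊢
    refine ⟨hξ.1, ?_⟩
    by_cases h6 : shift b w c ξ ∈ Q
    · exact Or.inl h6
    · right
      have h8 := hξ.2
      rw [hG] at h8
      simp only at h8
      rw [hS _ h6, hc] at h8
      exact h8
  linarith

end Pool.Agent.Results.MP_092512_nt.RandomDigitConstellations
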