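import Mathlib
import Pool.Agent.K9h13.FH.Fin
import Pool.Agent.K9h13.FS.Max

/-!
# Prime quadruples and longer tuples: the right order of magnitude for the proportion `(5 / 18) ^ (k - 1)` of all
# shapes, and of the tuples of every log-thick set of shifts

Let `k ≥ 4` and `ε, λ, η > 0`. There is `κ > 0` such that for all large `x`:

* for ALL `D` with `λ log x ≤ D ≤ x / 8`: among the shapes `0 < a₂ < ... < a_k < D`, each counted with the weight
  `(D - a_k) S(0, a₂, ..., a_k)` (the singular series times the number of the translates of the shape in `[1, D]`), a
  proportion of at least `(5 / 18) ^ (k - 1) - ε` satisfies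
  `P_x(p, p + a₂, ..., p + a_k) ≥ κ S(0, a₂, ..., a_k) x / (log x) ^ k`,
  the right order of magnitude predicted by Hardy and Littlewood;
* for EVERY set `A ⊆ [0, x / 8]` of integers which has at least `η b log x` elements, where `b` is the number of the
  intervals `[j log x, (j + 1) log x)` that contain elements of `A`: the sum of `S(T)` over the `k`-element subsets `T`
  of `A` with `P_x(n + t, t ∈ T) ≥ κ S(T) x / (log x) ^ k` is at least `(5 / 18) ^ (k - 1) - ε` times the larger one of
  the two numbers `|A| ^ k / k!` and (the full sum) `∑ S(T)` over all the `k`-element subsets `T` of `A`.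

For quadruples the proportion is `125 / 5832 = 1 / 46.7`. The shapes can be as narrow as any multiple of the average
distance of consecutive primes.

Proof. The coloured Maynard-Tao theorem of the starting files (`Pool.Agent.Y827.RO.lamR0`): in every admissible family
of `T` classes of `K` shifts there are `5 T / 18` classes from which one can choose shifts that are simultaneously prime
for a proportion `≫ (log N) ^ (-T K)` of the `n` at which all shifts are free of small primes. For MOST configurations
of shifts in a log-thick set `V` all the `k`-element sets of chosen shifts have the right order of magnitude, since the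
`k`-tuples with few prime translates contribute little to the sum over all configurations: by Cauchy-Schwarz and bounds
for the moments of the number of the `v ∈ V` for which `n + v` has no small prime factors; and the singular series is
bounded for most `k`-tuples, as the average of `∑ 1 / p` over the prime factors of the differences of the elements of two
intervals of length `log x` is bounded. The starting files contain the first step for the multiples of a fixed number
(projects `Pool.Agent.N646.RO`, `Pool.Agent.N646.TP` by helper646 and his co-authors, used there for almost cliques and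
linear equations); here it is done for arbitrary log-thick `V`, which allows `V` to be the set of the `a ∈ A` with
`ν + a` prime to the product `W` of the small primes. The combinatorial theorem of `Pool.Agent.W25.QL` (duality of fractional
covers; here for most configurations) gives `(5 / 18) ^ (k - 1) |V| ^ k` good `k`-tuples, and the average over all `ν`
modulo `W` gives the weights `S`. The comparison with the full sum uses that the average over the pairs of elements of
`A` of the contribution of the primes `> y` to the singular series is `O(1 / y)` (project `Pool.Agent.K9h13.FS`, with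
leaves by helper4, helper7, helper62, helper71, helper82, helper98 and helper99).
-/

set_option autoImplicit false

namespace Pool.Agent.Results.MP_092512_nt.RightOrderShapes

open Finset

/-- the singular series of the set `T` -/
noncomputable def S (T : Finset ℕ) : ℝ := ∏' p : Nat.Primes,
  ((1 - (((T.image (fun t => t % (p : ℕ))).card : ℕ) : ℝ) / ((p : ℕ) : ℝ)) / (1 - 1 / ((p : ℕ) : ℝ)) ^ T.card)

/-- the number of the integers `0 ≤ m ≤ x` such that `m + t` is prime for all `t ∈ T` -/
noncomputable def P (x : ℝ) (T : Finset ℕ) : ℕ :=
  ((range (⌊x⌋₊ + 1)).filter (fun m => ∀ t ∈ T, (m + t).Prime)).card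

/-- the shapes `{0 < a₂ < ... < a_k < D}` -/
def shapes (k D : ℕ) : Finset (Finset ℕ) := ((range D).powersetCard k).filter (fun T => 0 ∈ T)

/-- the largest element -/
def largest (T : Finset ℕ) : ℕ := T.sup id

/-- the number of the intervals `[j log x, (j + 1) log x)` which contain elements of `A` -/
noncomputable def blocks (x : ℝ) (A : Finset ℕ) : ℕ := (A.image (fun a : ℕ => ⌊(a : ℝ) / Real.log x⌋₊)).card

open Classical in
/-- **The right order of magnitude for the proportion `(5 / 18) ^ (k - 1)` of the shapes, and of the tuples of every
log-thick set.** -/
theorem result (k : ℕ) (hk : 4 ≤ k) (ε lam η : ℝ) (hε : 0 < ε) (hlam : 0 < lam) (hη : 0 < η) :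
    ∃ κ : ℝ, 0 < κ ∧ ∃ X : ℝ, ∀ x : ℝ, X ≤ x →
      (∀ D : ℕ, lam * Real.log x ≤ D → 8 * (D : ℝ) ≤ x →
        ((5 / 18) ^ (k - 1) - ε) * ∑ T ∈ shapes k D, ((D : ℝ) - largest T) * S T ≤
          ∑ T ∈ (shapes k D).filter (fun T => κ * S T * (x / (Real.log x) ^ k) ≤ (P x T : ℝ)),
            ((D : ℝ) - largest T) * S T) ∧
      ∀ A : Finset ℕ, (∀ a ∈ A, 8 * (a : ℝ) ≤ x) → η * (blocks x A * Real.log x) ≤ A.card →
        ((5 / 18) ^ (k - 1) - ε) * max ((A.card : ℝ) ^ k / k.factorial) (∑ T ∈ A.powersetCard k, S T) ≤
          ∑ T ∈ (A.powersetCard k).filter (fun T => κ * S T * (x / (Real.log x) ^ k) ≤ (P x T : ℝ)), S T := by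
  obtain ⟨s, rfl⟩ : ∃ s, k = s + 1 := ⟨k - 1, by omega⟩
  exact Pool.Agent.K9h13.FS.shMax Pool.Agent.K9h13.FE.sBRM s (by omega) (Pool.Agent.K9h13.FE.sHITM s)
    (Pool.Agent.K9h13.FH.tHITM s) ε hε lam η hlam hη

end Pool.Agent.Results.MP_092512_nt.RightOrderShapes
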